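import Pool.Agent.Lib.MP_b5021c_nt.IfaceOC
import Pool.Agent.Lib.MP_b5021c_nt.KO.H40.Vcl
import Pool.Agent.Lib.MP_b5021c_nt.E.H47.E4

/-!
# MP_b5021c_nt, all `θ`, K ODD, (O4), length at least five, row OC_VR: the unit rays of `V''`
-/

namespace Pool.Agent.B5.OC68

open scoped LaurentPolynomial
open Polynomial
open Pool.Agent.B5.OC

theorem tA_val : ((tA : (RO ℤ)ˣ) : RO ℤ) = -LaurentPolynomial.T (-1) := by
  unfold tA
  rw [H40.uT_val, Units.val_neg, Units.val_one, map_neg, map_one, neg_one_mul]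

theorem tC_val : ((tC : (RO ℤ)ˣ) : RO ℤ) = LaurentPolynomial.T 1 := by
  unfold tC
  rw [H40.uT_val, Units.val_one, map_one, one_mul]

theorem TT : (LaurentPolynomial.T (-1) : RO ℤ) * LaurentPolynomial.T 1 = 1 := by
  rw [← LaurentPolynomial.T_add, neg_add_cancel, LaurentPolynomial.T_zero]

/-- Small numbers are not zero modulo `k + 3`. -/
theorem nz {k : ℕ} (n : ℕ) (h0 : 0 < n) (h : n < k + 3) : (n : ZMod (k + 3)) ≠ 0 := by
  intro h1
  rw [ZMod.natCast_eq_zero_iff] at h1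
  exact absurd (Nat.le_of_dvd h0 h1) (by omega)

theorem lX (f : ℤ[X]) : toLaurent (X * f) = (LaurentPolynomial.T 1 : RO ℤ) * toLaurent f := by
  rw [map_mul, toLaurent_X]

section

variable {P L : Type} [Fintype P] [DecidableEq P] [AddCommGroup L] [Module.Free ℤ L]
  [Module.Finite ℤ L] {phi : L →+ (P → ℤ)} {D : AO ℤ L} {q f E r : ℤ[X]} {a : ℝ} {j : ℕ}
  {eta : L → (RO ℤ)ˣ} {C : Set L} {k : ℕ} {Z : ZMod (k + 3) → L} {mu : ZMod (k + 3) → L →+ ℤ}

/-- The exponent `Z i` of `V''`. -/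
theorem el (H : Oc phi D q f E a j eta C k Z mu) (Y : Dp phi (Z 0) (Z 1)) (i : ZMod (k + 3))
    (h0 : i ≠ 0) (h1 : i ≠ 1) : ∃ x : Ker Y.k1, ((x : Ker (co phi Y.i0)) : L) = Z i ∧
      (eta (Z i) : RO ℤ) * (dc Y (eta (Z 0) * tA) (eta (Z 1) * tC) D).coeff x =
        toLaurent (X * f) +
          -LaurentPolynomial.T (-1) * ((eta (Z 0) : RO ℤ) * (eta (Z i) : RO ℤ) *
            D.coeff (Z i + Z 0)) +
          LaurentPolynomial.T 1 * ((eta (Z 1) : RO ℤ) * (eta (Z i) : RO ℤ) *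
            D.coeff (Z i + Z 1)) -
          (eta (Z 0) : RO ℤ) * (eta (Z 1) : RO ℤ) * (eta (Z i) : RO ℤ) *
            D.coeff (Z i + Z 0 + Z 1) := by
  have hD := H.kb.ko.min.fp.dd
  have hb0 := hD.bin _ (H.cyc.mtl 0).r0.1
  have hb1 := hD.bin _ (H.cyc.mtl 1).r0.1
  have hd : ∀ p, phi (Z 0) p = 0 ∨ phi (Z 1) p = 0 := H.cyc.dis 0 1 (by
    intro h
    have := nz (k := k) 1 one_pos (by omega)
    rw [Nat.cast_one] at this
    exact this h.symm)
  obtain ⟨x, hx, hx1⟩ := (Pool.Agent.B5.E4.mdc ℤ P L phi D (Z 0) (Z 1) hD.inj hD.bin hb0 hb1 hd Y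
    (eta (Z 0) * tA) (eta (Z 1) * tC)).1 (Z i) (fun p => by
      rcases H.cyc.dis i 0 h0 p with h2 | h2
      · exact Or.inl h2
      · rcases H.cyc.dis i 1 h1 p with h3 | h3
        · exact Or.inl h3
        · exact Or.inr ⟨h2, h3⟩)
  refine ⟨x, hx, ?_⟩
  rw [hx1, Units.val_mul, Units.val_mul, tA_val, tC_val, ← H.co i]
  linear_combination -((eta (Z 0) : RO ℤ) * (eta (Z 1) : RO ℤ) * (eta (Z i) : RO ℤ) *
    D.coeff (Z i + Z 0 + Z 1)) * TT

/-- The constant coefficient of `V''`. -/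
theorem v0 (H : Oc phi D q f E a j eta C k Z mu)
    (hs : (eta (Z 0) : RO ℤ) * (eta (Z 1) : RO ℤ) * D.coeff (Z 0 + Z 1) = -toLaurent (X * f))
    (Y : Dp phi (Z 0) (Z 1)) : ((tA : (RO ℤ)ˣ) : RO ℤ) *
      (dc Y (eta (Z 0) * tA) (eta (Z 1) * tC) D).coeff 0 = toLaurent (E - (1 + X) * f) := by
  have hD := H.kb.ko.min.fp.dd
  have hb0 := hD.bin _ (H.cyc.mtl 0).r0.1
  have hb1 := hD.bin _ (H.cyc.mtl 1).r0.1
  have hd : ∀ p, phi (Z 0) p = 0 ∨ phi (Z 1) p = 0 := H.cyc.dis 0 1 (by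
    intro h
    have := nz (k := k) 1 one_pos (by omega)
    rw [Nat.cast_one] at this
    exact this h.symm)
  have h1 := (Pool.Agent.B5.E4.mdc ℤ P L phi D (Z 0) (Z 1) hD.inj hD.bin hb0 hb1 hd Y
    (eta (Z 0) * tA) (eta (Z 1) * tC)).2
  have h2 := H.co 0
  have h3 := H.co 1
  have h4 := H.kb.ko.D0
  have hq : q = f - X * E := by rw [← H.eE]; ring
  have hq' : (toLaurent q : RO ℤ) = toLaurent f - LaurentPolynomial.T 1 * toLaurent E := by
    rw [hq, map_sub, lX]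
  have hE : (toLaurent (E - (1 + X) * f) : RO ℤ) =
      toLaurent E - (1 + LaurentPolynomial.T 1) * toLaurent f := by
    rw [map_sub, map_mul, map_add, map_one, toLaurent_X]
  rw [lX] at hs h2 h3
  rw [h1, Units.val_mul, Units.val_mul, tA_val, tC_val, h4, hq', hE]
  obtain ⟨F, hF⟩ : ∃ F : RO ℤ, F = toLaurent f := ⟨_, rfl⟩
  obtain ⟨E', hE'⟩ : ∃ F : RO ℤ, F = toLaurent E := ⟨_, rfl⟩
  rw [← hF] at hs h2 h3 ⊢
  rw [← hE']
  obtain ⟨si, hsi⟩ : ∃ F : RO ℤ, F = LaurentPolynomial.T (-1) := ⟨_, rfl⟩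
  obtain ⟨ta, hta⟩ : ∃ F : RO ℤ, F = LaurentPolynomial.T 1 := ⟨_, rfl⟩
  have hT := TT
  rw [← hsi, ← hta] at hT ⊢
  rw [← hta] at hs h2 h3
  linear_combination si ^ 2 * h2 - si * ta * h3 + si ^ 2 * ta * hs +
    (E' + si * F - F * ta - si * F * ta - F) * hT

/-- The unit rays of `V''`: one ray. -/
theorem one_ray (hBpx : BpxS) (hRay : RayS) (H : Oc phi D q f E a j eta C k Z mu) (hk : 2 ≤ k)
    (Y : Dp phi (Z 0) (Z 1)) (hV : Vdd phi D eta j (Z 0) (Z 1) Y)
    (hs : (eta (Z 0) : RO ℤ) * (eta (Z 1) : RO ℤ) * D.coeff (Z 0 + Z 1) = -toLaurent (X * f))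
    {i : ZMod (k + 3)} (h0 : i ≠ 0) (h1 : i ≠ 1) {x : Ker Y.k1}
    (hx : ((x : Ker (co phi Y.i0)) : L) = Z i) {w1 : (RO ℤ)ˣ} {g : ℤ[X]}
    (hg : (w1 : RO ℤ) * (dc Y (eta (Z 0) * tA) (eta (Z 1) * tC) D).coeff x = toLaurent g)
    (hg0 : g.coeff 0 = 1) :
    Ray (dc Y (eta (Z 0) * tA) (eta (Z 1) * tC) D) x ∧ BPR.Cn j (E - (1 + X) * f) g := by
  obtain ⟨hDD, hCV, hrk⟩ := hV
  have hne : (dc Y (eta (Z 0) * tA) (eta (Z 1) * tC) D).coeff x ≠ 0 := by
    intro h
    rw [h, mul_zero] at hg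
    have h2 : g = 0 := by
      apply toLaurent_injective
      rw [← hg, map_zero]
    rw [h2, coeff_zero] at hg0
    exact zero_ne_one hg0
  obtain ⟨hR, -⟩ := hRay P L phi D q f E a j eta C k Z mu H (Or.inl hk) i h0 h1 Y
    (eta (Z 0) * tA) (eta (Z 1) * tC) x hx hne
  refine ⟨hR, ?_⟩
  have hp0 : (E - (1 + X) * f).coeff 0 = (j : ℤ) := by
    rw [coeff_sub, mul_coeff_zero, coeff_add, coeff_one_zero, coeff_X_zero, H.E0, H.f0]
    ring
  exact hBpx P (Ker Y.k1) (KO67.psd Y) _ j x tA w1 (E - (1 + X) * f) g H.kb.ko.j2 hDD hCV hrk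
    (fun K hK => H.kb.ko.ih K (by omega)) hR (v0 H hs Y) hp0 hg hg0

end

/-- Item 5 of OC_VR. -/
def Vr5 : Prop := ∀ (P L : Type) [Fintype P] [DecidableEq P] [AddCommGroup L]
  [Module.Free ℤ L] [Module.Finite ℤ L] (phi : L →+ (P → ℤ)) (D : AO ℤ L) (q f E r : ℤ[X])
  (a : ℝ) (j : ℕ) (eta : L → (RO ℤ)ˣ) (C : Set L) (k : ℕ) (Z : ZMod (k + 3) → L)
  (mu : ZMod (k + 3) → L →+ ℤ), Oc phi D q f E a j eta C k Z mu → 2 ≤ k →
    (∀ i, Ar4 D eta Z (toLaurent (X * f)) (toLaurent (X ^ 2 * r)) i) →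
      ∀ r', r = X * r' → (E - (1 + X) * f - f - r').coeff 0 = 1 → r = 0 ∨
        ∃ s n : ℤ, (s = 1 ∨ s = -1) ∧ toLaurent (r * (1 + X) ^ 2 * (1 - X)) =
          LaurentPolynomial.C s * LaurentPolynomial.T n *
            toLaurent (E - (1 + X) * f - f - r')

/-- Row OC_VR, with item 5 as a hypothesis. -/
theorem vr (hMco : McoS) (hVdd : VddS) (hRay : RayS) (hBpx : BpxS) (hBxd : BxdS)
    (hVr5 : Vr5) : VrS := by
  intro P L _ _ _ _ _ phi D q f E r a j eta C k Z mu H hk hA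
  have hD := H.kb.ko.min.fp.dd
  have hj := H.kb.ko.j2
  have c1 : (1 : ZMod (k + 3)) ≠ 0 := by
    have := nz (k := k) 1 one_pos (by omega)
    rwa [Nat.cast_one] at this
  have c2 : (2 : ZMod (k + 3)) ≠ 0 := by exact_mod_cast nz (k := k) 2 two_pos (by omega)
  have c3 : (3 : ZMod (k + 3)) ≠ 0 := by exact_mod_cast nz (k := k) 3 three_pos (by omega)
  have c4 : (4 : ZMod (k + 3)) ≠ 0 := by exact_mod_cast nz (k := k) 4 four_pos (by omega)
  obtain ⟨Y⟩ := (hMco ℤ P L phi D (Z 0) (Z 1) (eta (Z 0)) (eta (Z 1)) hD.inj hD.bin (by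
    have := H.cyc.mtl 0
    rwa [zero_add] at this)).2.2.2
  -- the arcs
  have hs : (eta (Z 0) : RO ℤ) * (eta (Z 1) : RO ℤ) * D.coeff (Z 0 + Z 1) =
      -toLaurent (X * f) := by
    have := (hA 0).a0.s01
    rwa [zero_add] at this
  have m1 : (-1 + 1 : ZMod (k + 3)) = 0 := by ring
  have m2 : (-1 + 2 : ZMod (k + 3)) = 1 := by ring
  have s02 := (hA (-1)).a0.s02
  have s01 := (hA (-1)).a0.s01
  have s012 := (hA (-1)).a0.s012
  rw [m2] at s02 s012
  rw [m1] at s01 s012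
  have lA : (toLaurent (X * f) : RO ℤ) = LaurentPolynomial.T 1 * toLaurent f := lX f
  have lP : (toLaurent (X ^ 2 * r) : RO ℤ) =
      LaurentPolynomial.T 1 * LaurentPolynomial.T 1 * toLaurent r := by
    rw [map_mul, map_pow, toLaurent_X]
    ring
  have hV := hVdd P L phi D q f E a j eta C k Z mu (f + X ^ 3 * r) H (Or.inl hk) (by
      rw [coeff_add, H.f0, mul_coeff_zero, coeff_X_pow]
      norm_num) (by
      rw [s02, lP, map_add, map_mul, map_pow, toLaurent_X]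
      ring) Y
  obtain ⟨F, hF⟩ : ∃ F : RO ℤ, F = toLaurent f := ⟨_, rfl⟩
  obtain ⟨R, hR⟩ : ∃ F : RO ℤ, F = toLaurent r := ⟨_, rfl⟩
  obtain ⟨si, hsi⟩ : ∃ F : RO ℤ, F = LaurentPolynomial.T (-1) := ⟨_, rfl⟩
  obtain ⟨ta, hta⟩ : ∃ F : RO ℤ, F = LaurentPolynomial.T 1 := ⟨_, rfl⟩
  have hT := TT
  rw [← hsi, ← hta] at hT
  rw [← hta, ← hF] at lA
  rw [← hta, ← hR] at lP
  have lLam : toLaurent ((1 - X - X ^ 2) * r) = (1 - ta - ta * ta) * R := by
    rw [map_mul, map_sub, map_sub, map_one, map_pow, toLaurent_X, ← hta, ← hR]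
    ring
  have l3 : toLaurent (X ^ 3 * r) = ta * ta * ta * R := by
    rw [map_mul, map_pow, toLaurent_X, ← hta, ← hR]
    ring
  rw [lA] at s01 s012
  rw [lP] at s02
  have e3 := el H Y 3 c3 (by
    intro h
    exact c2 (by linear_combination h))
  have e2 := el H Y 2 c2 (by
    intro h
    exact c1 (by linear_combination h))
  have t03 := (hA 0).s03
  have t013 := (hA 0).s013
  have t13 := (hA 0).a1.s02
  have t02 := (hA 0).a0.s02
  have t12 := (hA 0).a0.s12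
  have t012 := (hA 0).a0.s012
  have q13 : (1 : ZMod (k + 3)) + 2 = 3 := by norm_num
  rw [zero_add, lP] at t03 t02
  rw [zero_add, zero_add, lP] at t013
  rw [zero_add, q13, lP] at t13
  rw [zero_add, zero_add, lA] at t12 t012
  obtain ⟨x3, hx3, v3⟩ := e3
  obtain ⟨x2, hx2, v2⟩ := e2
  rw [← hsi, ← hta, lA] at v3 v2
  have w3 : (eta (Z 3) : RO ℤ) * (dc Y (eta (Z 0) * tA) (eta (Z 1) * tC) D).coeff x3 =
      ta * (F - (1 - ta - ta * ta) * R) := by
    rw [v3, add_comm (Z 3) (Z 0), add_comm (Z 3) (Z 1), add_right_comm (Z 0) (Z 3) (Z 1)]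
    linear_combination -si * t03 + ta * t13 - t013 - ta * R * hT
  have w2 : (eta (Z 2) : RO ℤ) * (dc Y (eta (Z 0) * tA) (eta (Z 1) * tC) D).coeff x2 =
      -(ta * (R + ta * F)) := by
    rw [v2, add_comm (Z 2) (Z 0), add_comm (Z 2) (Z 1), add_right_comm (Z 0) (Z 2) (Z 1)]
    linear_combination -si * t02 + ta * t12 - t012 - ta * R * hT
  refine ⟨?_, ?_, ?_, ?_, fun r' h1 h2 => hVr5 P L phi D q f E r a j eta C k Z mu H hk hA r' h1 h2⟩
  · -- `Z (-1)`
    intro g hg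
    obtain ⟨x, hx, hx1⟩ := el H Y (-1) (by
      intro h
      exact c1 (by linear_combination -h)) (by
      intro h
      exact c2 (by linear_combination -h))
    have lg : toLaurent g = F + ta * ta * ta * R := by
      rw [hg]
      rw [map_add toLaurent f (X ^ 3 * r), l3, ← hF]
    refine (one_ray hBpx hRay H hk Y hV hs (w1 := eta (Z (-1))) (g := g) ?_ ?_ hx ?_ ?_).2
    · intro h
      exact c1 (by linear_combination -h)
    · intro h
      exact c2 (by linear_combination -h)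
    · rw [hx1, lg, ← hsi, ← hta, lA]
      linear_combination -si * s01 + ta * s02 - s012 + F * hT
    · rw [hg, coeff_add, H.f0, mul_coeff_zero, coeff_X_pow]
      norm_num
  · -- `Z 3`, the good load is `y_3 = 1`
    intro g hg hg0
    have lg : toLaurent g = F - (1 - ta - ta * ta) * R := by
      rw [hg]
      rw [map_sub toLaurent f ((1 - X - X ^ 2) * r), lLam, ← hF]
    obtain ⟨hR3, hC⟩ := one_ray hBpx hRay H hk Y hV hs (w1 := -(tA * eta (Z 3))) (g := g) c3 (by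
        intro h
        exact c2 (by linear_combination h)) hx3 (by
      rw [Units.val_neg, Units.val_mul, tA_val, ← hsi, neg_mul, mul_assoc, w3, lg]
      linear_combination (F - (1 - ta - ta * ta) * R) * hT) hg0
    refine ⟨hC, fun hg1 => ?_⟩
    obtain ⟨hDD, hCV, hrk⟩ := hV
    have hk3 : ∀ a ∈ US (eta (Z 3)) (Z 3) D, mu 3 a = 0 := fun a ha => (H.cyc.ker 3 a).mp ha
    have hr := H.cyc.mtl
    have n30 : mu 3 (Z 0) = 0 := by
      apply H.cyc.oth 3 (Z 0) (hr 0).r0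
      · intro h
        exact c4 (by linear_combination -(H.cyc.inj h))
      · intro h
        exact c2 (by linear_combination -(H.cyc.inj h))
    have n31 : mu 3 (Z 1) = 0 := by
      apply H.cyc.oth 3 (Z 1) (hr 1).r0
      · intro h
        exact c3 (by linear_combination -(H.cyc.inj h))
      · intro h
        exact c1 (by linear_combination -(H.cyc.inj h))
    have n32 : mu 3 (Z 2) = -1 := by
      have h := H.cyc.prv 3
      rwa [show (3 - 1 : ZMod (k + 3)) = 2 by norm_num] at h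
    have hkd := KO.H40.ker_dbl Y (u0 := eta (Z 0) * tA) (u1 := eta (Z 1) * tC)
      (e := eta (Z 3)) (nu := mu 3) hk3 n30 n31 hx3 (hr 3).r0.2.1 (c := 1)
      (H := dc Y (eta (Z 0) * tA) (eta (Z 1) * tC) D) (by
        rw [show (cst (1 : RO ℤ) : AO ℤ (Ker Y.k1)) = 1 from rfl, one_mul]) one_ne_zero
    refine hBxd P (Ker Y.k1) (KO67.psd Y) (dc Y (eta (Z 0) * tA) (eta (Z 1) * tC) D) j x3 tA (eta (Z 3))
      (E - (1 + X) * f) g (((mu 3).comp (incl (Ker (co phi Y.i0)))).comp (incl (Ker Y.k1)))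
      hj hDD hCV hrk (fun K hK => H.kb.ko.ih K (by omega)) hR3 (v0 H hs Y) ?_ ?_ hg0 hg1 ?_ ?_
    · rw [coeff_sub, mul_coeff_zero, coeff_add, coeff_one_zero, coeff_X_zero, H.E0, H.f0]
      ring
    · rw [w3, tA_val, ← hsi, lg]
      linear_combination -(F - (1 - ta - ta * ta) * R) * hT
    · intro h
      have h1 := DFunLike.congr_fun h x2
      change mu 3 ((x2 : Ker (co phi Y.i0)) : L) = 0 at h1
      rw [hx2, n32] at h1
      norm_num at h1
    · exact hkd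
  · -- `Z 3`, the other sign
    intro g hg hg0
    have lg : toLaurent g = (1 - ta - ta * ta) * R - F := by
      rw [hg]
      rw [map_sub toLaurent ((1 - X - X ^ 2) * r) f, lLam, ← hF]
    refine (one_ray hBpx hRay H hk Y hV hs (w1 := tA * eta (Z 3)) (g := g) c3 (by
        intro h
        exact c2 (by linear_combination h)) hx3 ?_ hg0).2
    rw [Units.val_mul, tA_val, ← hsi, mul_assoc, w3, lg]
    linear_combination -(F - (1 - ta - ta * ta) * R) * hT
  · -- `Z 2`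
    intro g hg hg0
    have lr : toLaurent (r + X * f) = R + ta * F := by
      rw [map_add toLaurent r (X * f), lA, ← hR]
    rcases hg with hg | hg
    · refine (one_ray hBpx hRay H hk Y hV hs (w1 := tA * eta (Z 2)) (g := g) c2 (by
          intro h
          exact c1 (by linear_combination h)) hx2 ?_ hg0).2
      rw [Units.val_mul, tA_val, ← hsi, mul_assoc, w2, hg, lr]
      linear_combination (R + ta * F) * hT
    · refine (one_ray hBpx hRay H hk Y hV hs (w1 := -(tA * eta (Z 2))) (g := g) c2 (by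
          intro h
          exact c1 (by linear_combination h)) hx2 ?_ hg0).2
      rw [Units.val_neg, Units.val_mul, tA_val, ← hsi, neg_mul, mul_assoc, w2, hg]
      rw [map_neg toLaurent (r + X * f), lr]
      linear_combination -(R + ta * F) * hT

end Pool.Agent.B5.OC68
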