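import Pool.Agent.Lib.MP_b5021c_nt.IfaceBE
import Pool.Agent.Lib.MP_b5021c_nt.KO.H67.O2

/-!
# MP_b5021c_nt, all `θ`, K ODD, PURE BETA, row BE_TYP: the types A and B (PaperBeta.md, 2)
-/

namespace Pool.Agent.B5.KO68

open scoped LaurentPolynomial
open Polynomial
open Pool.Agent.B5.KE
open Pool.Agent.B5.KO67
open Pool.Agent.B5.Nr.Sch (Loc)
open Pool.Agent.B5.Nr (TrezS)

/-- A real factor of a polynomial whose roots in the open disc are exactly one real number. -/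
theorem fac_of {V : ℤ[X]} {b : ℝ} (hV : V.coeff 0 = 1)
    (hb : (V.map (Coef.emb : ℤ →+* ℂ)).roots.filter (fun x => ‖x‖ < 1) = {(b : ℂ)}) :
    ∃ t : ℝ[X], V.map (Int.castRingHom ℝ) = (X - C b) * t ∧
      ∀ z : ℂ, ‖z‖ < 1 → (aeval z t : ℂ) ≠ 0 := by
  have hV0 : V.map (Coef.emb : ℤ →+* ℂ) ≠ 0 := by
    intro h0
    have h1 : (V.map (Coef.emb : ℤ →+* ℂ)).coeff 0 = 0 := by rw [h0, coeff_zero]
    rw [coeff_map, hV, map_one] at h1
    exact one_ne_zero h1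
  have hmem : (b : ℂ) ∈ (V.map (Coef.emb : ℤ →+* ℂ)).roots.filter (fun x => ‖x‖ < 1) := by
    rw [hb]
    exact Multiset.mem_singleton_self _
  obtain ⟨h2, h3⟩ := Multiset.mem_filter.mp hmem
  have h4 : (V.map (Coef.emb : ℤ →+* ℂ)).eval (b : ℂ) = 0 := (mem_roots hV0).mp h2
  rw [ev_map, ae_re] at h4
  have h5 : (V.map (Int.castRingHom ℝ)).eval b = 0 := by exact_mod_cast h4
  obtain ⟨t, ht⟩ : (X - C b) ∣ V.map (Int.castRingHom ℝ) := dvd_iff_isRoot.mpr h5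
  refine ⟨t, ht, ?_⟩
  intro z hz hz0
  have h6 : V.map (Coef.emb : ℤ →+* ℂ) = (X - C (b : ℂ)) * t.map Complex.ofRealHom := by
    have h7 : (V.map (Int.castRingHom ℝ)).map Complex.ofRealHom =
        ((X - C b) * t).map Complex.ofRealHom := by rw [ht]
    rw [Polynomial.map_map, Polynomial.map_mul, Polynomial.map_sub, map_X, map_C] at h7
    have h8 : (Complex.ofRealHom).comp (Int.castRingHom ℝ) = Int.castRingHom ℂ :=
      RingHom.ext_int _ _
    rw [h8] at h7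
    exact h7
  have ht0 : t.map Complex.ofRealHom ≠ 0 := by
    intro h0
    rw [h0, mul_zero] at h6
    exact hV0 h6
  have hX : (X - C (b : ℂ)) ≠ 0 := X_sub_C_ne_zero _
  have h7 : z ∈ (t.map Complex.ofRealHom).roots.filter (fun x => ‖x‖ < 1) := by
    rw [Multiset.mem_filter, mem_roots ht0]
    refine ⟨?_, hz⟩
    change (t.map Complex.ofRealHom).eval z = 0
    rw [eval_map]
    rw [aeval_def] at hz0
    exact hz0
  have h8 := congrArg Multiset.card hb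
  rw [h6, roots_mul (mul_ne_zero hX ht0), Multiset.filter_add, roots_X_sub_C,
    Multiset.filter_singleton, if_pos h3, Multiset.card_add, Multiset.card_singleton] at h8
  have h9 : 0 < ((t.map Complex.ofRealHom).roots.filter (fun x => ‖x‖ < 1)).card :=
    Multiset.card_pos_iff_exists_mem.mpr ⟨z, h7⟩
  omega

section

variable {P L : Type} [Fintype P] [DecidableEq P] [AddCommGroup L] [Module.Free ℤ L]
  [Module.Finite ℤ L] {phi : L →+ (P → ℤ)} {D : AO ℤ L}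

/-- At the load B there is a big factor: otherwise the rank is at most `2 θ - 1`. -/
theorem big_ne (hFD : FDS) (hNb : NbzS) (hLd : LdzS) {S : L} {q f : ℤ[X]} {e : (RO ℤ)ˣ} {a : ℝ}
    {j : ℕ} (W : Ko phi D q a j) (hS : Ray D S) (hR : RN D S q f e a) :
    ∃ (i0 : P) (h : co phi i0 S = 1) (c : RO ℤ) (n : ℕ) (G : Fin n → AO ℤ (Ker (co phi i0))),
      FD phi D S i0 (ld e 1) h c n G ∧ big G ≠ ∅ := by
  classical
  obtain ⟨ha0, ha2, hθ2, hθ⟩ := ko_num W
  have hj := W.j2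
  have hD := W.min.fp.dd
  have hrk := W.rk
  have h2 : 2 ≤ Module.finrank ℤ L := by omega
  obtain ⟨i0, h⟩ := exists_port hD hS
  obtain ⟨c, n, G, fd⟩ := hFD ℤ P L phi D S i0 (ld e 1) h
    ⟨hD, h2, hS, h, V0_ne hR (k := 1) (le_refl 1)⟩
  refine ⟨i0, h, c, n, G, fd, ?_⟩
  intro hb
  have hX : ((ld e 1 : (RO ℤ)ˣ) : RO ℤ) * D.coeff S = toLaurent (X * f) := by
    have h1 := ld_S hR 1
    rw [pow_one] at h1
    exact h1
  have hD0 : D.coeff 0 = LaurentPolynomial.T 0 * toLaurent q := by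
    rw [LaurentPolynomial.T_zero, one_mul, hR.D0]
  have hX' : ((ld e 1 : (RO ℤ)ˣ) : RO ℤ) * D.coeff S =
      LaurentPolynomial.T 0 * toLaurent (X * f) := by
    rw [LaurentPolynomial.T_zero, one_mul, hX]
  have h3 := (hLd P L phi D S (ld e 1) a⁻¹ 0 q f hD h2 hS (classP_q hR) hD0
    (by rw [hR.loc.q0, abs_one]) hX').1
  have h4 := hNb P L phi D S i0 (ld e 1) h c n G a⁻¹ 0 q f fd hθ2 (classP_q hR) hD0 hX' h3
    (by
      intro i hi
      have h5 : i ∈ big G := by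
        unfold big
        exact Finset.mem_filter.mpr ⟨Finset.mem_univ i, hi⟩
      rw [hb] at h5
      exact absurd h5 (Finset.notMem_empty i))
  rw [hrk] at h4
  exact num_lin_o hθ h4

/-- Type A. -/
theorem ty_A (hTr : TrezS) {S : L} {q g : ℤ[X]} {e : (RO ℤ)ˣ} {a : ℝ} {j : ℕ}
    (W : Ko phi D q a j) (hS : Ray D S) (hR : RN D S q g e a) (hu : g.coeff 0 = 1) :
    ∃ E, TA (bm D S (-e)) E := by
  obtain ⟨E, hE, hE0, hE1, -⟩ := typa hR.loc hu hR.ne
  have hn := n_ne_one_o hTr W hS hR hu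
  refine ⟨E, ?_, by omega⟩
  unfold bm
  rw [V0_A hR, ← hE, ← map_neg]
  congr 1
  ring

/-- Type B. -/
theorem ty_B (hPc : PCZS) (hMV : MVS) (hMm : MmulS) (hFD : FDS) (hNb : NbzS) (hLd : LdzS) {S : L}
    {q g : ℤ[X]} {e : (RO ℤ)ˣ} {a : ℝ} {j : ℕ} (W : Ko phi D q a j) (hS : Ray D S)
    (hR : RN D S q g e a) : ∃ V b, TB (bm D S (ld e 1)) V a b := by
  have hl := lob hPc hR.loc hR.u hR.ne (k := 1) (le_refl 1)
  obtain ⟨i0, h, c, n, G, fd, hbig⟩ := big_ne hFD hNb hLd W hS hR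
  have hzero := zero_B hMV hMm hR fd hbig
  rcases hl with h3 | ⟨b, hab, hb1, hb⟩
  · rw [pow_one] at h3
    obtain ⟨b, hb1, hb2⟩ := hzero
    exact absurd hb2 (h3 b hb1)
  · have hV : (q + X ^ 1 * g).coeff 0 = 1 := by
      rw [pow_one, coeff_add, coeff_X_mul_zero, hR.loc.q0, add_zero]
    exact ⟨q + X ^ 1 * g, b, V0_ld hR 1, hV, hab, hb1, fac_of hV hb⟩

end

/-- Row BE_TYP. -/
theorem beTyp (hTr : TrezS) (hPc : PCZS) (hMV : MVS) (hMm : MmulS) (hFD : FDS) (hNb : NbzS)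
    (hLd : LdzS) : BeTypS := by
  intro P L _ _ _ _ _ phi D q f a j s S es T lam B i
  obtain ⟨-, g, e, hR, h1⟩ := B.tT i
  rcases h1 with h1 | ⟨h1, hu, -⟩
  · right
    rw [h1]
    exact ty_B hPc hMV hMm hFD hNb hLd B.ko (B.rT i) hR
  · left
    rw [h1]
    exact ty_A hTr B.ko (B.rT i) hR hu

end Pool.Agent.B5.KO68
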